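import Pool.Agent.Helper7.KS3.Goals2

/-!
# Project KS3, packet KS3-S_STQ: one step, with a graph on the level
-/

set_option autoImplicit false
open Classical

namespace Pool.Agent.Helper19.KS3

open Pool.Agent.Helper7.KS3 Finset
open Pool.Agent.Helper41.Girth4 (Pr Pr_eq_sum Pr_nonneg)

variable {V : Type} [Fintype V] {K : ℕ}

/-- the admissible colourings of the level `T` -/
noncomputable def Om (T : Finset V) (A : V → Finset (Fin K)) (F : SimpleGraph V) (k₀ : Fin K) :
    Finset (V → Fin K) :=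
  univ.filter fun κ => (∀ u ∈ T, κ u ∈ A u) ∧ (∀ u, u ∉ T → κ u = k₀) ∧
    ∀ u ∈ T, ∀ w ∈ T, F.Adj u w → κ u ≠ κ w

theorem mem_Om {T : Finset V} {A : V → Finset (Fin K)} {F : SimpleGraph V} {k₀ : Fin K}
    {κ : V → Fin K} : κ ∈ Om T A F k₀ ↔ (∀ u ∈ T, κ u ∈ A u) ∧ (∀ u, u ∉ T → κ u = k₀) ∧
    ∀ u ∈ T, ∀ w ∈ T, F.Adj u w → κ u ≠ κ w := by
  rw [Om, mem_filter]
  exact ⟨fun h => h.2, fun h => ⟨mem_univ _, h⟩⟩

/-- the values which are allowed at `u` -/
noncomputable def al (T : Finset V) (A : V → Finset (Fin K)) (F : SimpleGraph V) (u : V)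
    (κ : V → Fin K) : Finset (Fin K) :=
  A u \ (T.filter fun w => F.Adj u w).image κ

theorem card_al {T : Finset V} {A : V → Finset (Fin K)} {F : SimpleGraph V} {b : ℕ} {u : V}
    (h : b + (T.filter (fun w => F.Adj u w)).card ≤ (A u).card) (κ : V → Fin K) :
    b ≤ (al T A F u κ).card := by
  have h1 := le_card_sdiff ((T.filter fun w => F.Adj u w).image κ) (A u)
  have h2 : ((T.filter fun w => F.Adj u w).image κ).card ≤
      (T.filter fun w => F.Adj u w).card := card_image_le
  unfold al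
  omega

theorem update_mem {T : Finset V} {A : V → Finset (Fin K)} {F : SimpleGraph V} {k₀ : Fin K}
    {κ : V → Fin K} (h : κ ∈ Om T A F k₀) {u : V} (hu : u ∈ T) {c : Fin K}
    (hc : c ∈ al T A F u κ) : Function.update κ u c ∈ Om T A F k₀ := by
  rw [mem_Om] at h ⊢
  obtain ⟨h1, h2, h3⟩ := h
  rw [al, mem_sdiff, mem_image] at hc
  obtain ⟨hc1, hc2⟩ := hc
  have hne : ∀ w ∈ T, F.Adj u w → κ w ≠ c := by
    intro w hw hadj he
    exact hc2 ⟨w, mem_filter.2 ⟨hw, hadj⟩, he⟩
  refine ⟨fun v hv => ?_, fun v hv => ?_, fun v hv w hw hadj => ?_⟩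
  · by_cases hvu : v = u
    · subst hvu
      rw [Function.update_self]
      exact hc1
    · rw [Function.update_of_ne hvu]
      exact h1 v hv
  · rw [Function.update_of_ne (show v ≠ u from fun e => hv (by rw [e]; exact hu))]
    exact h2 v hv
  · by_cases hvu : v = u
    · subst hvu
      have hwv : w ≠ v := fun e => F.ne_of_adj hadj e.symm
      rw [Function.update_self, Function.update_of_ne hwv]
      exact (hne w hw hadj).symm
    · by_cases hwu : w = u
      · subst hwu
        rw [Function.update_self, Function.update_of_ne hvu]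
        exact hne v hv hadj.symm
      · rw [Function.update_of_ne hvu, Function.update_of_ne hwu]
        exact h3 v hv w hw hadj

theorem Om_nonempty {T : Finset V} {A : V → Finset (Fin K)} {F : SimpleGraph V} (k₀ : Fin K)
    {b : ℕ} (hb : 1 ≤ b)
    (h : ∀ u ∈ T, b + (T.filter (fun w => F.Adj u w)).card ≤ (A u).card) :
    (Om T A F k₀).Nonempty := by
  have key : ∀ T' : Finset V, T' ⊆ T → (Om T' A F k₀).Nonempty := by
    intro T'
    induction T' using Finset.induction_on with
    | empty =>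
      intro _
      exact ⟨fun _ => k₀, mem_Om.2 ⟨by simp, fun _ _ => rfl, by simp⟩⟩
    | insert u S hu ih =>
      intro hT
      obtain ⟨κ, hκ⟩ := ih ((subset_insert _ _).trans hT)
      have huT : u ∈ T := hT (mem_insert_self _ _)
      have hsub : S ⊆ T := (subset_insert _ _).trans hT
      have h1 : b + (S.filter (fun w => F.Adj u w)).card ≤ (A u).card :=
        (Nat.add_le_add_left (card_le_card (filter_subset_filter _ hsub)) _).trans (h u huT)
      obtain ⟨c, hc⟩ := card_pos.1 (lt_of_lt_of_le (by omega : 0 < b) (card_al h1 κ))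
      rw [mem_Om] at hκ
      obtain ⟨k1, k2, k3⟩ := hκ
      rw [al, mem_sdiff, mem_image] at hc
      obtain ⟨hc1, hc2⟩ := hc
      have hne : ∀ w ∈ S, F.Adj u w → κ w ≠ c := by
        intro w hw hadj he
        exact hc2 ⟨w, mem_filter.2 ⟨hw, hadj⟩, he⟩
      refine ⟨Function.update κ u c, mem_Om.2 ⟨fun v hv => ?_, fun v hv => ?_,
        fun v hv w hw hadj => ?_⟩⟩
      · by_cases hvu : v = u
        · subst hvu
          rw [Function.update_self]
          exact hc1
        · rw [Function.update_of_ne hvu]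
          exact k1 v ((mem_insert.1 hv).resolve_left hvu)
      · rw [mem_insert, not_or] at hv
        rw [Function.update_of_ne hv.1]
        exact k2 v hv.2
      · by_cases hvu : v = u
        · subst hvu
          have hwv : w ≠ v := fun e => F.ne_of_adj hadj e.symm
          rw [Function.update_self, Function.update_of_ne hwv]
          exact (hne w ((mem_insert.1 hw).resolve_left hwv) hadj).symm
        · by_cases hwu : w = u
          · subst hwu
            rw [Function.update_self, Function.update_of_ne hvu]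
            exact hne v ((mem_insert.1 hv).resolve_left hvu) hadj.symm
          · rw [Function.update_of_ne hvu, Function.update_of_ne hwu]
            exact k3 v ((mem_insert.1 hv).resolve_left hvu) w
              ((mem_insert.1 hw).resolve_left hwu) hadj
  exact key T subset_rfl

/-- (1) -/
theorem one {T : Finset V} {A : V → Finset (Fin K)} {F : SimpleGraph V} {k₀ : Fin K} {b : ℕ}
    {u : V} (hu : u ∈ T) (h : b + (T.filter (fun w => F.Adj u w)).card ≤ (A u).card)
    (j : Fin K) (G : (V → Fin K) → ℝ) (hG : ∀ κ, 0 ≤ G κ)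
    (hGu : ∀ κ c, G (Function.update κ u c) = G κ) :
    (b : ℝ) * ∑ κ ∈ (Om T A F k₀).filter (fun κ => κ u = j), G κ ≤ ∑ κ ∈ Om T A F k₀, G κ := by
  set O := (Om T A F k₀).filter (fun κ => κ u = j) with hO
  have h1 : (b : ℝ) * ∑ κ ∈ O, G κ ≤
      ∑ κ ∈ O, ∑ c ∈ al T A F u κ, G (Function.update κ u c) := by
    rw [mul_sum]
    refine sum_le_sum fun κ _ => ?_
    rw [sum_congr rfl fun c _ => hGu κ c, sum_const, nsmul_eq_mul]
    exact mul_le_mul_of_nonneg_right (by exact_mod_cast card_al h κ) (hG κ)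
  refine h1.trans ?_
  rw [sum_sigma']
  rw [← sum_image (s := O.sigma fun κ => al T A F u κ) (f := G)
    (g := fun x => Function.update x.1 u x.2)]
  · refine sum_le_sum_of_subset_of_nonneg ?_ fun κ _ _ => hG κ
    intro κ hκ
    rw [mem_image] at hκ
    obtain ⟨⟨κ', c⟩, hx, rfl⟩ := hκ
    rw [mem_sigma] at hx
    exact update_mem (mem_filter.1 hx.1).1 hu hx.2
  · rintro ⟨κ, c⟩ hx ⟨κ', c'⟩ hx' he
    have hx1 := (mem_sigma.1 (mem_coe.1 hx)).1
    have hx2 := (mem_sigma.1 (mem_coe.1 hx')).1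
    have e1 : κ u = j := (mem_filter.1 hx1).2
    have e2 : κ' u = j := (mem_filter.1 hx2).2
    have he : Function.update κ u c = Function.update κ' u c' := he
    have e3 : c = c' := by
      have := congrFun he u
      rwa [Function.update_self, Function.update_self] at this
    have e4 : κ = κ' := by
      funext v
      by_cases hv : v = u
      · subst hv
        rw [e1, e2]
      · have := congrFun he v
        rwa [Function.update_of_ne hv, Function.update_of_ne hv] at this
    subst e3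
    subst e4
    rfl

/-- (2) -/
theorem two {T : Finset V} {A : V → Finset (Fin K)} {F : SimpleGraph V} {k₀ : Fin K} {q b : ℕ}
    (hq : 1 ≤ q) (hb : 1 ≤ b) (h : ∀ u ∈ T, b + (T.filter (fun w => F.Adj u w)).card ≤ (A u).card)
    (j : Fin K) (W : (V → Fin K) → Prop) (S : Finset V) : S ⊆ T →
    (∀ u ∈ S, ∀ κ c, W (Function.update κ u c) ↔ W κ) →
    ∑ κ ∈ Om T A F k₀, (if W κ then (1 + 1 / (q : ℝ)) ^ (S.filter fun u => κ u = j).card else 0) ≤
      (1 + 1 / ((q : ℝ) * b)) ^ S.card * ∑ κ ∈ Om T A F k₀, (if W κ then (1 : ℝ) else 0) := by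
  have hq0 : (0 : ℝ) < q := by exact_mod_cast hq
  have hb0 : (0 : ℝ) < b := by exact_mod_cast hb
  induction S using Finset.induction_on with
  | empty => intro _ _; simp
  | insert u S hu ih =>
    intro hT hW
    have huT : u ∈ T := hT (mem_insert_self _ _)
    have ih' := ih ((subset_insert _ _).trans hT) fun v hv => hW v (mem_insert_of_mem hv)
    set G : (V → Fin K) → ℝ := fun κ =>
      if W κ then (1 + 1 / (q : ℝ)) ^ (S.filter fun u => κ u = j).card else 0 with hGd
    have hG : ∀ κ, 0 ≤ G κ := by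
      intro κ
      rw [hGd]
      dsimp only
      split_ifs <;> positivity
    have hGu : ∀ κ c, G (Function.update κ u c) = G κ := by
      intro κ c
      rw [hGd]
      dsimp only
      have e1 : (S.filter fun v => Function.update κ u c v = j) = S.filter fun v => κ v = j := by
        refine filter_congr fun v hv => ?_
        rw [Function.update_of_ne (show v ≠ u from fun e => hu (by rw [← e]; exact hv))]
      rw [e1]
      by_cases hw : W κ
      · rw [if_pos hw, if_pos ((hW u (mem_insert_self _ _) κ c).2 hw)]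
      · rw [if_neg hw, if_neg fun h => hw ((hW u (mem_insert_self _ _) κ c).1 h)]
    have h1 := one (k₀ := k₀) huT (h u huT) j G hG hGu
    have h2 : ∀ κ, (if W κ then
        (1 + 1 / (q : ℝ)) ^ ((insert u S).filter fun u => κ u = j).card else 0) =
        G κ + 1 / (q : ℝ) * (if κ u = j then G κ else 0) := by
      intro κ
      rw [hGd]
      dsimp only
      by_cases hw : W κ
      · rw [if_pos hw, if_pos hw, filter_insert]
        by_cases hj : κ u = j
        · rw [if_pos hj, if_pos hj, card_insert_of_notMem fun h => hu (mem_filter.1 h).1, pow_succ]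
          ring
        · rw [if_neg hj, if_neg hj]
          ring
      · rw [if_neg hw, if_neg hw]
        simp
    rw [sum_congr rfl fun κ _ => h2 κ, sum_add_distrib, ← mul_sum,
      ← sum_filter (s := Om T A F k₀) (fun κ => κ u = j) G,
      card_insert_of_notMem hu, pow_succ]
    set X := ∑ κ ∈ Om T A F k₀, G κ with hX
    set Y := ∑ κ ∈ (Om T A F k₀).filter (fun κ => κ u = j), G κ with hY
    have hX0 : 0 ≤ X := sum_nonneg fun κ _ => hG κ
    have h3 : 1 / (q : ℝ) * Y ≤ 1 / ((q : ℝ) * b) * X := by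
      rw [div_mul_eq_mul_div, div_mul_eq_mul_div, one_mul, one_mul,
        div_le_div_iff₀ hq0 (by positivity)]
      nlinarith
    calc X + 1 / (q : ℝ) * Y ≤ (1 + 1 / ((q : ℝ) * b)) * X := by linarith
      _ ≤ (1 + 1 / ((q : ℝ) * b)) * ((1 + 1 / ((q : ℝ) * b)) ^ S.card *
          ∑ κ ∈ Om T A F k₀, (if W κ then (1 : ℝ) else 0)) :=
        mul_le_mul_of_nonneg_left ih' (by positivity)
      _ = _ := by ring

theorem log_le {q : ℕ} (hq : 1 ≤ q) : 1 / ((q : ℝ) + 1) ≤ Real.log (1 + 1 / (q : ℝ)) := by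
  have hq0 : (0 : ℝ) < q := by exact_mod_cast hq
  have h1 := Real.one_sub_inv_le_log_of_pos (show (0 : ℝ) < 1 + 1 / (q : ℝ) by positivity)
  refine le_trans (le_of_eq ?_) h1
  field_simp
  ring

/-- (3), the estimate for one bad colouring -/
theorem three {q b c t X : ℕ} (hq : 1 ≤ q) (hb : 1 ≤ b)
    (h : (q + 1) * c + q * b * t ≤ q * b * X) :
    (1 + 1 / ((q : ℝ) * b)) ^ c * (1 + 1 / (q : ℝ)) ^ t ≤ (1 + 1 / (q : ℝ)) ^ X := by
  have hq0 : (0 : ℝ) < q := by exact_mod_cast hq
  have hb0 : (0 : ℝ) < b := by exact_mod_cast hb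
  have hl := log_le hq
  set l := Real.log (1 + 1 / (q : ℝ)) with hld
  have hy : (0 : ℝ) < 1 + 1 / (q : ℝ) := by positivity
  have hl0 : 0 < l := lt_of_lt_of_le (by positivity) hl
  have e1 : ∀ n : ℕ, (1 + 1 / (q : ℝ)) ^ n = Real.exp (n * l) := by
    intro n
    rw [Real.exp_nat_mul, hld, Real.exp_log hy]
  have e2 : (1 + 1 / ((q : ℝ) * b)) ^ c ≤ Real.exp (c * (1 / ((q : ℝ) * b))) := by
    rw [Real.exp_nat_mul]
    refine pow_le_pow_left₀ (by positivity) ?_ _
    have := Real.add_one_le_exp (1 / ((q : ℝ) * b))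
    linarith
  have h' : ((q : ℝ) + 1) * c + q * b * t ≤ q * b * X := by exact_mod_cast h
  have e3 : (c : ℝ) * (1 / ((q : ℝ) * b)) + t * l ≤ X * l := by
    have hqb : (0 : ℝ) < q * b := by positivity
    have h3 : 1 ≤ l * ((q : ℝ) + 1) := by
      rw [div_le_iff₀ (by positivity)] at hl
      exact hl
    have h4 : (c : ℝ) ≤ c * (l * ((q : ℝ) + 1)) := le_mul_of_one_le_right (Nat.cast_nonneg _) h3
    have h5 : (c : ℝ) + q * b * (t * l) ≤ q * b * (X * l) := by
      have h6 := mul_le_mul_of_nonneg_right h' hl0.le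
      nlinarith
    have h7 : (c : ℝ) * (1 / ((q : ℝ) * b)) + t * l = ((c : ℝ) + q * b * (t * l)) / (q * b) := by
      field_simp
    rw [h7, div_le_iff₀ hqb]
    linarith
  calc (1 + 1 / ((q : ℝ) * b)) ^ c * (1 + 1 / (q : ℝ)) ^ t
      ≤ Real.exp (c * (1 / ((q : ℝ) * b))) * Real.exp (t * l) := by
        rw [e1 t]
        exact mul_le_mul_of_nonneg_right e2 (Real.exp_pos _).le
    _ = Real.exp (c * (1 / ((q : ℝ) * b)) + t * l) := (Real.exp_add _ _).symm
    _ ≤ Real.exp (X * l) := Real.exp_le_exp.2 e3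
    _ = _ := (e1 X).symm

/-- Packet KS3-S_STQ. -/
theorem s_stq (hLLL : S_LLL) : S_STQ := by
  intro V _ q b m K N t PD T R A F hq hb hm hK hN hPD hA hR hbig
  have hq0 : (0 : ℝ) < q := by exact_mod_cast hq
  have hb0 : (0 : ℝ) < b := by exact_mod_cast hb
  let k₀ : Fin K := ⟨0, hK⟩
  obtain ⟨κ₀, hκ₀⟩ := Om_nonempty (F := F) k₀ hb hA
  let Ω := {κ : V → Fin K // κ ∈ Om T A F k₀}
  haveI : Nonempty Ω := ⟨⟨κ₀, hκ₀⟩⟩
  -- the numbers
  let X : V → Fin K → (V → Fin K) → ℕ := fun v j κ =>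
    ((PD v).filter (fun u => u ∈ T ∧ κ u = j)).card
  let c : V → Fin K → ℕ := fun v j => ((PD v).filter (fun u => u ∈ T ∧ j ∈ A u)).card
  let Bad : V × Fin K → (V → Fin K) → Prop := fun i κ =>
    i.1 ∈ R ∧ (q + 1) * c i.1 i.2 + q * b * t < q * b * X i.1 i.2 κ
  let Nb : V × Fin K → Finset (V × Fin K) := fun i => if i.1 ∈ R then
    univ.filter (fun i' : V × Fin K => i'.1 ∈ R ∧ ∃ u ∈ T, u ∈ PD i.1 ∧ u ∈ PD i'.1) else ∅
  have hres := hLLL Ω (V × Fin K) (fun i κ => Bad i κ.1) Nb (((q : ℝ) / (q + 1)) ^ t) (m * N * K)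
    (by positivity) (Nat.mul_pos (Nat.mul_pos hm hN) hK) ?_ ?_ ?_
  · obtain ⟨⟨κ, hκ⟩, hbad⟩ := hres
    obtain ⟨h1, h2, h3⟩ := mem_Om.1 hκ
    refine ⟨κ, h1, h3, fun v hv j => ?_⟩
    have := hbad (v, j)
    by_contra hcon
    exact this ⟨hv, not_le.1 hcon⟩
  · rintro ⟨v, j⟩ Z hZ
    by_cases hv : v ∈ R
    swap
    · have : Pr (fun ω : Ω => Bad (v, j) ω.1 ∧ ∀ i ∈ Z, ¬Bad i ω.1) ≤ 0 := by
        have e : (fun ω : Ω => Bad (v, j) ω.1 ∧ ∀ i ∈ Z, ¬Bad i ω.1) = fun _ => False := by
          funext ω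
          exact propext ⟨fun h => hv h.1.1, False.elim⟩
        rw [e, Pool.Agent.Helper41.Girth4.Pr_false]
      exact this.trans (mul_nonneg (by positivity) (Pr_nonneg _))
    obtain ⟨W, hW⟩ : ∃ W : (V → Fin K) → Prop, W = fun κ => ∀ i ∈ Z, ¬Bad i κ := ⟨_, rfl⟩
    set S := (PD v).filter (fun u => u ∈ T ∧ j ∈ A u) with hS
    have hST : S ⊆ T := fun u hu => (mem_filter.1 hu).2.1
    have hWu : ∀ u ∈ S, ∀ κ c, W (Function.update κ u c) ↔ W κ := by
      intro u hu κ c'
      rw [hW]
      refine forall₂_congr fun i hi => not_congr ?_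
      refine and_congr_right fun hiR => ?_
      have hni : i ∉ Nb (v, j) := fun h => (disjoint_left.1 hZ) hi h
      have huPD : u ∉ PD i.1 := by
        intro hcon
        refine hni ?_
        show i ∈ (if v ∈ R then _ else _)
        rw [if_pos hv, mem_filter]
        exact ⟨mem_univ _, hiR, u, hST hu, (mem_filter.1 hu).1, hcon⟩
      have e : X i.1 i.2 (Function.update κ u c') = X i.1 i.2 κ := by
        show (filter _ _).card = (filter _ _).card
        congr 1
        refine filter_congr fun w hw => ?_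
        rw [Function.update_of_ne (show w ≠ u from fun e => huPD (by rw [← e]; exact hw))]
      rw [e]
    have h2 := two (k₀ := k₀) hq hb hA j W S hST hWu
    have hXS : ∀ κ ∈ Om T A F k₀, X v j κ = (S.filter fun u => κ u = j).card := by
      intro κ hκ
      obtain ⟨k1, -, -⟩ := mem_Om.1 hκ
      show (filter _ _).card = _
      congr 1
      rw [hS, filter_filter]
      refine filter_congr fun u _ => ?_
      constructor
      · rintro ⟨h3, h4⟩
        exact ⟨⟨h3, h4 ▸ k1 u h3⟩, h4⟩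
      · rintro ⟨⟨h3, -⟩, h4⟩
        exact ⟨h3, h4⟩
    have hc : c v j = S.card := rfl
    set yc := (1 + 1 / ((q : ℝ) * b)) ^ S.card with hyc
    have hyc0 : 0 < yc := by positivity
    have h3 : yc * (1 + 1 / (q : ℝ)) ^ t *
        ∑ κ ∈ Om T A F k₀, (if Bad (v, j) κ ∧ W κ then (1 : ℝ) else 0) ≤
        yc * ∑ κ ∈ Om T A F k₀, (if W κ then (1 : ℝ) else 0) := by
      refine le_trans ?_ h2
      rw [mul_sum]
      refine sum_le_sum fun κ hκ => ?_
      by_cases hw : W κ
      · by_cases hbd : Bad (v, j) κ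
        · rw [if_pos ⟨hbd, hw⟩, if_pos hw, mul_one]
          have h4 := hbd.2.le
          rw [hXS κ hκ] at h4
          exact three hq hb h4
        · rw [if_neg fun h => hbd h.1, mul_zero, if_pos hw]
          positivity
      · rw [if_neg fun h => hw h.2, mul_zero, if_neg hw]
    have h4 : (1 + 1 / (q : ℝ)) ^ t *
        ∑ κ ∈ Om T A F k₀, (if Bad (v, j) κ ∧ W κ then (1 : ℝ) else 0) ≤
        ∑ κ ∈ Om T A F k₀, (if W κ then (1 : ℝ) else 0) := by
      rw [mul_assoc] at h3
      exact le_of_mul_le_mul_left h3 hyc0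
    have h5 : ((q : ℝ) / (q + 1)) ^ t * (1 + 1 / (q : ℝ)) ^ t = 1 := by
      rw [← mul_pow]
      have : (q : ℝ) / (q + 1) * (1 + 1 / q) = 1 := by
        field_simp
      rw [this, one_pow]
    have h6 : ∑ κ ∈ Om T A F k₀, (if Bad (v, j) κ ∧ W κ then (1 : ℝ) else 0) ≤
        ((q : ℝ) / (q + 1)) ^ t * ∑ κ ∈ Om T A F k₀, (if W κ then (1 : ℝ) else 0) := by
      have h7 := mul_le_mul_of_nonneg_left h4 (show 0 ≤ ((q : ℝ) / (q + 1)) ^ t by positivity)
      rwa [← mul_assoc, h5, one_mul] at h7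
    have w1 : (fun ω : Ω => Bad (v, j) ω.1 ∧ ∀ i ∈ Z, ¬Bad i ω.1) =
        fun ω : Ω => Bad (v, j) ω.1 ∧ W ω.1 := by rw [hW]
    have w2 : (fun ω : Ω => ∀ i ∈ Z, ¬Bad i ω.1) = fun ω : Ω => W ω.1 := by rw [hW]
    rw [w1, w2, Pr_eq_sum, Pr_eq_sum, mul_div_assoc']
    refine div_le_div_of_nonneg_right ?_ (Nat.cast_nonneg _)
    have e1 : ∑ x : Ω, (if Bad (v, j) x.1 ∧ W x.1 then (1 : ℝ) else 0) =
        ∑ κ ∈ Om T A F k₀, (if Bad (v, j) κ ∧ W κ then (1 : ℝ) else 0) :=
      sum_coe_sort (Om T A F k₀) fun κ => if Bad (v, j) κ ∧ W κ then (1 : ℝ) else 0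
    have e2 : ∑ x : Ω, (if W x.1 then (1 : ℝ) else 0) =
        ∑ κ ∈ Om T A F k₀, (if W κ then (1 : ℝ) else 0) :=
      sum_coe_sort (Om T A F k₀) fun κ => if W κ then (1 : ℝ) else 0
    rw [e1, e2]
    exact h6
  · rintro ⟨v, j⟩
    show (if v ∈ R then _ else _ : Finset (V × Fin K)).card ≤ _
    by_cases hv : v ∈ R
    · rw [if_pos hv]
      have hsub : (univ.filter (fun i' : V × Fin K => i'.1 ∈ R ∧ ∃ u ∈ T, u ∈ PD v ∧
          u ∈ PD i'.1)) ⊆ ((PD v).filter (fun u => u ∈ T)).biUnion fun u =>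
            (R.filter fun v' => u ∈ PD v') ×ˢ (univ : Finset (Fin K)) := by
        intro i hi
        obtain ⟨-, h1, u, h2, h3, h4⟩ := mem_filter.1 hi
        rw [mem_biUnion]
        exact ⟨u, mem_filter.2 ⟨h3, h2⟩, mem_product.2 ⟨mem_filter.2 ⟨h1, h4⟩, mem_univ _⟩⟩
      calc _ ≤ _ := card_le_card hsub
        _ ≤ ((PD v).filter (fun u => u ∈ T)).card * (N * K) := by
          refine card_biUnion_le_card_mul _ _ _ fun u hu => ?_
          rw [card_product, card_univ, Fintype.card_fin]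
          exact Nat.mul_le_mul_right _ (hR u (mem_filter.1 hu).2)
        _ ≤ m * (N * K) := Nat.mul_le_mul_right _ ((card_filter_le _ _).trans (hPD v))
        _ = _ := by ring
    · rw [if_neg hv]
      simp
  · have h1 : (4 * (m * N * K) * (q : ℝ) ^ t) ≤ ((q : ℝ) + 1) ^ t := by exact_mod_cast hbig
    rw [div_pow]
    push_cast
    have h2 : (0 : ℝ) < ((q : ℝ) + 1) ^ t := by positivity
    rw [mul_div_assoc', div_mul_eq_mul_div, div_le_one h2]
    linarith

end Pool.Agent.Helper19.KS3
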